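import Mathlib

/-!
# Three commuting stochastic matrices which have no dilation at all

There are three commuting unital normal completely positive maps `T₀, T₁, T₂` on the commutative
von Neumann algebra `A` of diagonal operators on `ℂ⁷` such that the associated CP-semigroup over
`ℕ³` has no dilation: there are no Hilbert space `K`, no von Neumann algebra `B` on `K` with a
projection `p` such that `A = p B p` and no E-semigroup `θ` over `ℕ³` on `B` (normal or not) with
`T_s(a) = p θ_s(a) p`.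

The example. The states are `0` (root), `1, 2, 3` and `4, 5, 6`. For each of the three colours `c`
the root goes to `1, 2, 3` with probability `1/3` each, `{1, 2, 3}` is mapped onto `{4, 5, 6}` by a
bijection `σ_c`, and `4, 5, 6` are sent to the root. These three stochastic matrices commute,
whatever the bijections are. Here `σ₀ = id` and `σ₁`, `σ₂` are two transpositions which do not
commute.

The proof. Write `F_v` for the projection of the state `v`. In a dilation one has
`θ_d(F_{σ_d(k)}) F_k = F_k` for `k = 1, 2, 3` and `∑_k θ_c(F_k) F_0 = F_0`, hence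
`θ_c θ_d (F_{σ_d(k)}) F_0 = θ_c(F_k) F_0`. Since `θ_c` and `θ_d` commute,
`θ_c(F_k) F_0 = θ_d(F_m) F_0` whenever `σ_d(k) = σ_c(m)`. Using this for the three pairs of colours one
gets `θ_0(F_k) F_0 = θ_0(F_m) F_0` with `k ≠ m`, hence `θ_0(F_k) F_0 = 0`, a contradiction to
`F_0 θ_0(F_k) F_0 = F_0 / 3`.
-/

set_option autoImplicit false

open scoped InnerProductSpace ComplexOrder
open ContinuousLinearMap InnerProductSpace

noncomputable section

namespace Pool.Agent.Results.MP_0a86e9_an.NoDilationH79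

universe u v

section defs

variable {H : Type v} [NormedAddCommGroup H] [InnerProductSpace ℂ H]

/-- bounded operators on the Hilbert space `H` -/
abbrev Op (H : Type v) [NormedAddCommGroup H] [InnerProductSpace ℂ H] : Type v := H →L[ℂ] H

/-- the sum of two operators -/
abbrev sumOp (a b : Op H) : Op H := a + b

/-- the product (composition) of two operators -/
abbrev mulOp (a b : Op H) : Op H := a * b

/-- a scalar multiple of an operator -/
abbrev smulOp (z : ℂ) (a : Op H) : Op H := z • a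

variable [CompleteSpace H]

/-- the adjoint of an operator -/
abbrev starOp (a : Op H) : Op H := star a

/-- `T` is additive on `A`. Here and below, a map of the von Neumann algebra `A` is given by a map on
all operators of which only the values on `A` matter. -/
def AdditiveOn (A : VonNeumannAlgebra H) (T : Op H → Op H) : Prop :=
  ∀ a ∈ A, ∀ b ∈ A, T (sumOp a b) = sumOp (T a) (T b)

/-- `T` is complex homogeneous on `A`. -/
def HomogeneousOn (A : VonNeumannAlgebra H) (T : Op H → Op H) : Prop :=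
  ∀ (z : ℂ), ∀ a ∈ A, T (smulOp z a) = smulOp z (T a)

/-- `T` maps `A` into `A` and is linear on `A`. -/
structure IsLinearMapOf (A : VonNeumannAlgebra H) (T : Op H → Op H) : Prop where
  mem : ∀ a ∈ A, T a ∈ A
  add : AdditiveOn A T
  smul : HomogeneousOn A T

/-- Complete positivity on `A`: `∑ ⟪ξ i, T ((a i)* a j) ξ j⟫ ≥ 0` for all `a i` in `A` and `ξ i` in `H`. -/
def CPOn (A : VonNeumannAlgebra H) (T : Op H → Op H) : Prop :=
  ∀ (n : ℕ) (a : Fin n → Op H) (ξ : Fin n → H), (∀ i, a i ∈ A) →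
    0 ≤ ∑ i, ∑ j, ⟪ξ i, T (mulOp (starOp (a i)) (a j)) (ξ j)⟫_ℂ

/-- The functional `f` is σ-weakly continuous on `A`: `f a = ∑ ⟪x i, a (y i)⟫` for square summable
families `x`, `y`. -/
def SigmaWeak (A : VonNeumannAlgebra H) (f : Op H → ℂ) : Prop :=
  ∃ (ι : Type) (x y : ι → H), Summable (fun i => ‖x i‖ ^ 2) ∧ Summable (fun i => ‖y i‖ ^ 2) ∧
    ∀ a ∈ A, HasSum (fun i => ⟪x i, a (y i)⟫_ℂ) (f a)

/-- Normality on `A`: all `a ↦ ⟪ξ, T a η⟫` are σ-weakly continuous. -/
def NormalOn (A : VonNeumannAlgebra H) (T : Op H → Op H) : Prop :=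
  ∀ ξ η : H, SigmaWeak A (fun a => ⟪ξ, T a η⟫_ℂ)

/-- `T` is a unital normal completely positive linear map of `A` into itself. -/
structure IsNormalUCP (A : VonNeumannAlgebra H) (T : Op H → Op H) : Prop where
  linear : IsLinearMapOf A T
  unital : T 1 = 1
  cp : CPOn A T
  normal : NormalOn A T

/-- The maps `T 0, T 1, T 2` commute on `A`. -/
def CommuteOn (A : VonNeumannAlgebra H) (T : Fin 3 → Op H → Op H) : Prop :=
  ∀ c d, ∀ a ∈ A, T c (T d a) = T d (T c a)

/-- The algebra `A` is commutative. -/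
def IsCommutative (A : VonNeumannAlgebra H) : Prop :=
  ∀ x ∈ A, ∀ y ∈ A, mulOp x y = mulOp y x

omit [CompleteSpace H] in
/-- The semigroup over `ℕ³` generated by three commuting maps: `T_s = T₀^{s₀} T₁^{s₁} T₂^{s₂}`. -/
def semigroupOf (T : Fin 3 → Op H → Op H) (s : Fin 3 → ℕ) : Op H → Op H :=
  (T 0)^[s 0] ∘ (T 1)^[s 1] ∘ (T 2)^[s 2]

/-- `φ` is a `*`-endomorphism of `B` (not required to be unital or normal). -/
structure IsStarEndo (B : VonNeumannAlgebra H) (φ : Op H → Op H) : Prop where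
  linear : IsLinearMapOf B φ
  mul : ∀ b ∈ B, ∀ c ∈ B, φ (mulOp b c) = mulOp (φ b) (φ c)
  star : ∀ b ∈ B, φ (starOp b) = starOp (φ b)

/-- `θ` is a semigroup over `ℕ³` of `*`-endomorphisms of `B`. -/
structure IsEndoSemigroup (B : VonNeumannAlgebra H) (θ : (Fin 3 → ℕ) → Op H → Op H) : Prop where
  endo : ∀ s, IsStarEndo B (θ s)
  zero_step : ∀ b ∈ B, θ 0 b = b
  add_step : ∀ s t, ∀ b ∈ B, θ s (θ t b) = θ (s + t) b

end defs

section defs2

variable {H : Type v} [NormedAddCommGroup H] [InnerProductSpace ℂ H] [CompleteSpace H]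
variable {K : Type u} [NormedAddCommGroup K] [InnerProductSpace ℂ K] [CompleteSpace K]

/-- the isometry `V` as a bounded operator -/
def iso (V : H →ₗᵢ[ℂ] K) : H →L[ℂ] K := V.toContinuousLinearMap

/-- `W` is the adjoint `V†` of the isometry `V`, that is, the projection onto the range of `V`
followed by the inverse of `V`. -/
def IsAdjointOf (W : K →L[ℂ] H) (V : H →ₗᵢ[ℂ] K) : Prop := ∀ x y, ⟪W x, y⟫_ℂ = ⟪x, V y⟫_ℂ

/-- `V a V†`: the operator `a` on `H` as an operator on `K` (`V` isometry, `W = V†`) -/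
def up (V : H →ₗᵢ[ℂ] K) (W : K →L[ℂ] H) (a : Op H) : Op K := (iso V).comp (a.comp W)

/-- `V† b V`: the compression of `b` to `H` (`V` isometry, `W = V†`) -/
def down (V : H →ₗᵢ[ℂ] K) (W : K →L[ℂ] H) (b : Op K) : Op H := W.comp (b.comp (iso V))

/-- `(p, K, B, θ)` is a dilation of the family `T` (over `ℕ³`) of maps on `A`. The Hilbert space `H`
of `A` is embedded in `K` by the isometry `V` with adjoint `W`, and `p = V W = up V W 1` is the
projection onto it. The endomorphisms `θ_s` are not required to be normal, so this is weaker than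
the usual notion. -/
structure IsDilation (A : VonNeumannAlgebra H) (T : (Fin 3 → ℕ) → Op H → Op H)
    (V : H →ₗᵢ[ℂ] K) (W : K →L[ℂ] H) (B : VonNeumannAlgebra K)
    (θ : (Fin 3 → ℕ) → Op K → Op K) : Prop where
  adjoint : IsAdjointOf W V
  proj_mem : up V W 1 ∈ B
  corner : ∀ a : Op H, a ∈ A ↔ ∃ b ∈ B, a = down V W b
  semigroup : IsEndoSemigroup B θ
  dilates : ∀ s, ∀ a ∈ A, T s a = down V W (θ s (up V W a))

/-- The family `T` has a dilation (with a Hilbert space `K` in the universe `u`). -/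
def HasDilation (A : VonNeumannAlgebra H) (T : (Fin 3 → ℕ) → Op H → Op H) : Prop :=
  ∃ (K : Type u) (_ : NormedAddCommGroup K) (_ : InnerProductSpace ℂ K) (_ : CompleteSpace K)
    (V : H →ₗᵢ[ℂ] K) (W : K →L[ℂ] H) (B : VonNeumannAlgebra K)
    (θ : (Fin 3 → ℕ) → Op K → Op K), IsDilation A T V W B θ

end defs2

/-! ### The example -/

/-- the Hilbert space `ℂ⁷` -/
abbrev H7 : Type := EuclideanSpace ℂ (Fin 7)

/-- the standard basis vectors -/
def e (v : Fin 7) : H7 := EuclideanSpace.single v 1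

/-- matrix units -/
def E (v w : Fin 7) : H7 →L[ℂ] H7 := rankOne ℂ (e v) (e w)

/-- the targets of the deterministic moves; the value at `0` is not used -/
def g (c : Fin 3) : Fin 7 → Fin 7 :=
  ![![0, 4, 5, 6, 0, 0, 0], ![0, 5, 4, 6, 0, 0, 0], ![0, 4, 6, 5, 0, 0, 0]] c

/-- the transition probabilities -/
def P (c : Fin 3) (v w : Fin 7) : ℝ :=
  if v = 0 then (if w = 1 ∨ w = 2 ∨ w = 3 then 1 / 3 else 0) else (if w = g c v then 1 else 0)

/-- the three maps -/
def T (c : Fin 3) (x : H7 →L[ℂ] H7) : H7 →L[ℂ] H7 :=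
  ∑ v, ∑ w, ((P c v w : ℝ) : ℂ) • (E v w * x * E w v)

lemma e_inner (v w : Fin 7) : ⟪e v, e w⟫_ℂ = if v = w then 1 else 0 := by
  unfold e
  rw [EuclideanSpace.inner_single_left]
  simp

lemma E_mul (a b c d : Fin 7) : E a b * E c d = if b = c then E a d else 0 := by
  unfold E
  rw [ContinuousLinearMap.mul_def, rankOne_comp_rankOne, e_inner]
  split_ifs <;> simp

lemma E_star (a b : Fin 7) : star (E a b) = E b a := by
  unfold E
  rw [ContinuousLinearMap.star_eq_adjoint, adjoint_rankOne]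

lemma E_sandwich (v w : Fin 7) (x : H7 →L[ℂ] H7) :
    E v w * x * E w v = ⟪e w, x (e w)⟫_ℂ • E v v := by
  unfold E
  rw [mul_assoc, ContinuousLinearMap.mul_def, ContinuousLinearMap.mul_def, comp_rankOne,
    rankOne_comp_rankOne]

lemma sum_E : ∑ v, E v v = 1 := by
  ext x i
  simp [E, e, EuclideanSpace.inner_single_left, Finset.sum_apply, Pi.single_apply]

lemma E_ne_zero : E 0 0 ≠ 0 := by
  unfold E
  refine rankOne_ne_zero ?_ ?_ <;> · intro h; have := e_inner 0 0; rw [h] at this; simp at this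

/-- the von Neumann algebra of the diagonal operators, as a commutant -/
def D : VonNeumannAlgebra H7 where
  toStarSubalgebra := StarSubalgebra.centralizer ℂ (Set.range fun v => E v v)
  centralizer_centralizer' := by simp

lemma mem_D_iff {x : H7 →L[ℂ] H7} : x ∈ D ↔ ∀ v, E v v * x = x * E v v := by
  change x ∈ StarSubalgebra.centralizer ℂ (Set.range fun v => E v v) ↔ _
  rw [StarSubalgebra.mem_centralizer_iff]
  constructor
  · intro h v
    exact (h _ ⟨v, rfl⟩).1
  · rintro h _ ⟨v, rfl⟩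
    refine ⟨h v, ?_⟩
    simp only [E_star]
    exact h v

lemma E_mem (v : Fin 7) : E v v ∈ D := by
  rw [mem_D_iff]
  intro w
  simp only [E_mul]
  by_cases h : w = v
  · subst h; simp
  · simp [h, Ne.symm h]

lemma D_diag {x : H7 →L[ℂ] H7} (hx : x ∈ D) : x = ∑ v, ⟪e v, x (e v)⟫_ℂ • E v v := by
  calc x = (∑ v, E v v) * x := by rw [sum_E, one_mul]
    _ = ∑ v, E v v * x * E v v := by
        rw [Finset.sum_mul]
        refine Finset.sum_congr rfl fun v _ => ?_
        rw [mul_assoc, ← mem_D_iff.1 hx v, ← mul_assoc, E_mul, if_pos rfl]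
    _ = _ := by simp_rw [E_sandwich]

lemma D_comm {x y : H7 →L[ℂ] H7} (hx : x ∈ D) (hy : y ∈ D) : x * y = y * x := by
  rw [D_diag hx, Finset.sum_mul, Finset.mul_sum]
  refine Finset.sum_congr rfl fun v _ => ?_
  rw [smul_mul_assoc, mul_smul_comm, mem_D_iff.1 hy v]

/-- the diagonal operator with entries `f` -/
def dg (f : Fin 7 → ℂ) : H7 →L[ℂ] H7 := ∑ v, f v • E v v

lemma dg_mem (f : Fin 7 → ℂ) : dg f ∈ D := by
  unfold dg
  exact sum_mem fun v _ => D.toStarSubalgebra.smul_mem (E_mem v) (f v)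

lemma dg_entry (f : Fin 7 → ℂ) (v : Fin 7) : ⟪e v, dg f (e v)⟫_ℂ = f v := by
  unfold dg
  simp only [sum_apply, smul_apply, E, rankOne_apply, e_inner, inner_sum, inner_smul_right]
  simp

lemma T_eq (c : Fin 3) (x : H7 →L[ℂ] H7) :
    T c x = dg (fun v => ∑ w, ((P c v w : ℝ) : ℂ) * ⟪e w, x (e w)⟫_ℂ) := by
  unfold T dg
  refine Finset.sum_congr rfl fun v _ => ?_
  simp only [E_sandwich, smul_smul]
  exact (Finset.sum_smul ..).symm

lemma T_dg (c : Fin 3) (f : Fin 7 → ℂ) :
    T c (dg f) = dg (fun v => ∑ w, ((P c v w : ℝ) : ℂ) * f w) := by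
  rw [T_eq]
  simp_rw [dg_entry]

lemma sum_P (c : Fin 3) (v : Fin 7) (f : Fin 7 → ℂ) :
    ∑ w, ((P c v w : ℝ) : ℂ) * f w = if v = 0 then (f 1 + f 2 + f 3) / 3 else f (g c v) := by
  by_cases h : v = 0
  · subst h
    simp [P, Fin.sum_univ_seven]
    ring
  · simp only [P, if_neg h]
    rw [Finset.sum_eq_single (g c v)]
    · simp
    · intro w _ hw
      simp [hw]
    · simp

lemma T_comm (c d : Fin 3) (x : H7 →L[ℂ] H7) : T c (T d x) = T d (T c x) := by
  rw [T_eq d x, T_eq c x, T_dg, T_dg]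
  simp only [sum_P]
  congr 1
  funext v
  fin_cases v <;> fin_cases c <;> fin_cases d <;> simp [g] <;> ring

lemma T_one (c : Fin 3) : T c 1 = 1 := by
  rw [T_eq]
  simp only [sum_P]
  rw [← sum_E]
  unfold dg
  refine Finset.sum_congr rfl fun v _ => ?_
  simp only [sum_E, one_apply_eq_self, e_inner, if_true]
  split_ifs <;> norm_num

lemma sum4 {n : ℕ} (f : Fin n → Fin n → Fin 7 → Fin 7 → ℂ) :
    ∑ i, ∑ j, ∑ v, ∑ w, f i j v w = ∑ v, ∑ w, ∑ i, ∑ j, f i j v w := by
  calc ∑ i, ∑ j, ∑ v, ∑ w, f i j v w = ∑ i, ∑ v, ∑ j, ∑ w, f i j v w :=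
        Finset.sum_congr rfl fun i _ => Finset.sum_comm
    _ = ∑ i, ∑ v, ∑ w, ∑ j, f i j v w :=
        Finset.sum_congr rfl fun i _ => Finset.sum_congr rfl fun v _ => Finset.sum_comm
    _ = ∑ v, ∑ i, ∑ w, ∑ j, f i j v w := Finset.sum_comm
    _ = ∑ v, ∑ w, ∑ i, ∑ j, f i j v w := Finset.sum_congr rfl fun v _ => Finset.sum_comm

lemma normalUCP (c : Fin 3) : IsNormalUCP D (T c) where
  linear := by
    refine ⟨fun a _ => by rw [T_eq]; exact dg_mem _, fun a _ b _ => ?_, fun z a _ => ?_⟩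
    · unfold T
      simp only [← Finset.sum_add_distrib, ← smul_add, mul_add, add_mul]
    · unfold T
      simp only [Finset.smul_sum, mul_smul_comm, smul_mul_assoc, smul_comm z]
  unital := T_one c
  cp n a ξ _ := by
    have h1 : ∀ i j, ⟪ξ i, T c (star (a i) * a j) (ξ j)⟫_ℂ =
        ∑ v, ∑ w, ((P c v w : ℝ) : ℂ) * ⟪a i (E w v (ξ i)), a j (E w v (ξ j))⟫_ℂ := by
      intro i j
      unfold T
      simp only [sum_apply, smul_apply, inner_sum, inner_smul_right]
      refine Finset.sum_congr rfl fun v _ => Finset.sum_congr rfl fun w _ => ?_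
      congr 1
      rw [← E_star w v, ContinuousLinearMap.star_eq_adjoint, ContinuousLinearMap.star_eq_adjoint]
      simp only [mul_apply_eq_comp, adjoint_inner_right]
    simp only [h1]
    rw [sum4]
    refine Finset.sum_nonneg fun v _ => Finset.sum_nonneg fun w _ => ?_
    have h2 : ∑ i, ∑ j, ((P c v w : ℝ) : ℂ) * ⟪a i (E w v (ξ i)), a j (E w v (ξ j))⟫_ℂ =
        ((P c v w : ℝ) : ℂ) * ⟪∑ i, a i (E w v (ξ i)), ∑ j, a j (E w v (ξ j))⟫_ℂ := by
      simp only [sum_inner, inner_sum, Finset.mul_sum]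
      exact Finset.sum_comm
    rw [h2]
    refine mul_nonneg ?_ ?_
    · rw [Complex.zero_le_real]
      unfold P
      split_ifs <;> norm_num
    · have h3 : ∀ x : H7, ⟪x, x⟫_ℂ = ((‖x‖ ^ 2 : ℝ) : ℂ) := fun x => by
        rw [inner_self_eq_norm_sq_to_K]; simp
      rw [h3, Complex.zero_le_real]
      positivity
  normal ξ η := by
    refine ⟨Fin 7 × Fin 7, fun q => ((P c q.1 q.2 : ℝ) : ℂ) • E q.2 q.1 ξ, fun q => E q.2 q.1 η,
      (hasSum_fintype _).summable, (hasSum_fintype _).summable, fun a _ => ?_⟩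
    have h : ⟪ξ, T c a η⟫_ℂ = ∑ q : Fin 7 × Fin 7,
        ⟪((P c q.1 q.2 : ℝ) : ℂ) • E q.2 q.1 ξ, a (E q.2 q.1 η)⟫_ℂ := by
      rw [Fintype.sum_prod_type]
      unfold T
      simp only [sum_apply, smul_apply, inner_sum, inner_smul_right, inner_smul_left,
        Complex.conj_ofReal]
      refine Finset.sum_congr rfl fun v _ => Finset.sum_congr rfl fun w _ => ?_
      congr 1
      rw [← E_star w v, ContinuousLinearMap.star_eq_adjoint]
      simp only [mul_apply_eq_comp, adjoint_inner_right]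
    beta_reduce
    rw [h]
    exact hasSum_fintype _

/-! ### There is no dilation -/

section nodil

variable {K : Type u} [NormedAddCommGroup K] [InnerProductSpace ℂ K] [CompleteSpace K]

/-- projections `Q`, `F` with `F Q F = F` satisfy `Q F = F` -/
lemma proj_full {Q F : K →L[ℂ] K} (hQ : star Q = Q) (hQ2 : Q * Q = Q) (hF : star F = F)
    (hF2 : F * F = F) (h : F * Q * F = F) : Q * F = F := by
  have h1 : (F - Q * F) = 0 := by
    rw [← CStarRing.star_mul_self_eq_zero_iff, star_sub, star_mul, hQ, hF]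
    calc (F - F * Q) * (F - Q * F) = F * F - F * Q * F - F * Q * F + F * (Q * Q) * F := by
          noncomm_ring
      _ = 0 := by rw [hQ2, h, hF2]; abel
  exact (sub_eq_zero.1 h1).symm

/-- projections `Q`, `F` with `F Q F = 0` satisfy `Q F = 0` -/
lemma proj_zero {Q F : K →L[ℂ] K} (hQ : star Q = Q) (hQ2 : Q * Q = Q) (hF : star F = F)
    (h : F * Q * F = 0) : Q * F = 0 := by
  rw [← CStarRing.star_mul_self_eq_zero_iff, star_mul, hQ, hF]
  calc F * Q * (Q * F) = F * (Q * Q) * F := by noncomm_ring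
    _ = 0 := by rw [hQ2, h]

variable {V : H7 →ₗᵢ[ℂ] K} {W : K →L[ℂ] H7} {B : VonNeumannAlgebra K}
  {θ : (Fin 3 → ℕ) → (K →L[ℂ] K) → (K →L[ℂ] K)}

/-- the projection of the state `v`, seen in `B` -/
def F (V : H7 →ₗᵢ[ℂ] K) (W : K →L[ℂ] H7) (v : Fin 7) : K →L[ℂ] K := up V W (E v v)

omit [CompleteSpace K] in
lemma adj_comp (hW : IsAdjointOf W V) : W ∘L iso V = 1 := by
  ext1 x
  refine ext_inner_right ℂ fun y => ?_
  simp only [comp_apply, iso, LinearIsometry.coe_toContinuousLinearMap, one_apply_eq_self]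
  rw [hW, V.inner_map_map]

lemma F_mul (hW : IsAdjointOf W V) (v w : Fin 7) :
    F V W v * F V W w = if v = w then F V W v else 0 := by
  have h : F V W v * F V W w = iso V ∘L (E v v * (W ∘L iso V) * E w w) ∘L W := rfl
  rw [h, adj_comp hW, mul_one, E_mul]
  split_ifs with hvw
  · subst hvw; rfl
  · simp

lemma F_star (hW : IsAdjointOf W V) (v : Fin 7) : star (F V W v) = F V W v := by
  have hW' : ∀ x y, ⟪V x, y⟫_ℂ = ⟪x, W y⟫_ℂ := by
    intro x y
    rw [← inner_conj_symm, ← hW, inner_conj_symm]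
  rw [ContinuousLinearMap.star_eq_adjoint]
  symm
  rw [eq_adjoint_iff]
  intro x y
  simp only [F, up, iso, comp_apply, LinearIsometry.coe_toContinuousLinearMap]
  rw [hW', ← hW]
  simp only [E, rankOne_apply, inner_smul_left, inner_smul_right]
  rw [inner_conj_symm, mul_comm]

lemma F_mem (h : IsDilation D (semigroupOf T) V W B θ) (v : Fin 7) : F V W v ∈ B := by
  obtain ⟨b, hb, hb'⟩ := (h.corner (E v v)).1 (E_mem v)
  have h1 : F V W v = up V W 1 * b * up V W 1 := by
    unfold F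
    rw [hb']
    rfl
  rw [h1]
  exact mul_mem (mul_mem h.proj_mem hb) h.proj_mem

lemma F_ne_zero (hW : IsAdjointOf W V) : F V W 0 ≠ 0 := by
  intro h
  apply E_ne_zero
  have h1 : W ∘L F V W 0 ∘L iso V = E 0 0 := by
    have h2 : W ∘L F V W 0 ∘L iso V = (W ∘L iso V) * E 0 0 * (W ∘L iso V) := rfl
    rw [h2, adj_comp hW, one_mul, mul_one]
  rw [← h1, h]
  simp

/-- the basis vector `c` of `ℕ³` -/
abbrev δ (c : Fin 3) : Fin 3 → ℕ := Pi.single c 1

lemma semigroup_single (c : Fin 3) (x : H7 →L[ℂ] H7) : semigroupOf T (δ c) x = T c x := by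
  unfold semigroupOf
  fin_cases c <;> simp [δ]

lemma T_E (c : Fin 3) (w : Fin 7) : T c (E w w) = dg (fun v => ((P c v w : ℝ) : ℂ)) := by
  rw [T_eq]
  congr 1
  funext v
  have h : ∀ u, ⟪e u, E w w (e u)⟫_ℂ = if u = w then 1 else 0 := by
    intro u
    simp only [E, rankOne_apply, inner_smul_right, e_inner]
    by_cases h : u = w
    · simp [h]
    · simp [h]
  simp [h]

lemma key (h : IsDilation D (semigroupOf T) V W B θ) (c : Fin 3) (v w : Fin 7) :
    F V W v * θ (δ c) (F V W w) * F V W v = ((P c v w : ℝ) : ℂ) • F V W v := by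
  have h1 := h.dilates (δ c) (E w w) (E_mem w)
  rw [semigroup_single, T_E] at h1
  have h2 : F V W v * θ (δ c) (F V W w) * F V W v =
      up V W (E v v * down V W (θ (δ c) (up V W (E w w))) * E v v) := rfl
  rw [h2, ← h1, E_sandwich, dg_entry]
  unfold F up
  simp

lemma no_dilation (h : IsDilation D (semigroupOf T) V W B θ) : False := by
  have hθm : ∀ c, ∀ b ∈ B, θ (δ c) b ∈ B := fun c => (h.semigroup.endo _).linear.mem
  have hF := F_mem h
  have hstar : ∀ s, ∀ b ∈ B, θ s (star b) = star (θ s b) := fun s => (h.semigroup.endo s).star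
  have hmul : ∀ s, ∀ b ∈ B, ∀ c ∈ B, θ s (b * c) = θ s b * θ s c :=
    fun s => (h.semigroup.endo s).mul
  have hadd : ∀ s, ∀ b ∈ B, ∀ c ∈ B, θ s (b + c) = θ s b + θ s c :=
    fun s => (h.semigroup.endo s).linear.add
  have hsmul : ∀ s, ∀ (z : ℂ), ∀ b ∈ B, θ s (z • b) = z • θ s b :=
    fun s => (h.semigroup.endo s).linear.smul
  -- commutation
  have hcomm : ∀ c d, ∀ b ∈ B, θ (δ c) (θ (δ d) b) = θ (δ d) (θ (δ c) b) := by
    intro c d b hb
    rw [h.semigroup.add_step _ _ b hb, h.semigroup.add_step _ _ b hb, add_comm]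
  -- images of the projections
  have hs : ∀ c v, star (θ (δ c) (F V W v)) = θ (δ c) (F V W v) := by
    intro c v
    rw [← hstar _ _ (hF v), F_star h.adjoint]
  have hi : ∀ c v, θ (δ c) (F V W v) * θ (δ c) (F V W v) = θ (δ c) (F V W v) := by
    intro c v
    rw [← hmul _ _ (hF v) _ (hF v), F_mul h.adjoint, if_pos rfl]
  have hFi : ∀ v, F V W v * F V W v = F V W v := fun v => by rw [F_mul h.adjoint, if_pos rfl]
  have hone : ∀ c v w, P c v w = 1 → θ (δ c) (F V W w) * F V W v = F V W v := by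
    intro c v w hP
    refine proj_full (hs c w) (hi c w) (F_star h.adjoint v) (hFi v) ?_
    rw [key h, hP]
    simp
  have hzero : ∀ c v w, P c v w = 0 → θ (δ c) (F V W w) * F V W v = 0 := by
    intro c v w hP
    refine proj_zero (hs c w) (hi c w) (F_star h.adjoint v) ?_
    rw [key h, hP]
    simp
  have hθ0 : ∀ c, θ (δ c) 0 = 0 := by
    intro c
    have := hsmul (δ c) 0 (F V W 0) (hF 0)
    simpa using this
  -- the first step
  have hroot : ∀ c, θ (δ c) (F V W 1) * F V W 0 + θ (δ c) (F V W 2) * F V W 0 + θ (δ c) (F V W 3) * F V W 0 =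
      F V W 0 := by
    intro c
    have hm : F V W 1 + F V W 2 + F V W 3 ∈ B := add_mem (add_mem (hF 1) (hF 2)) (hF 3)
    have hm2 : F V W 1 + F V W 2 ∈ B := add_mem (hF 1) (hF 2)
    have hadd2 : θ (δ c) (F V W 1 + F V W 2 + F V W 3) =
        θ (δ c) (F V W 1) + θ (δ c) (F V W 2) + θ (δ c) (F V W 3) := by
      rw [hadd _ _ hm2 _ (hF 3), hadd _ _ (hF 1) _ (hF 2)]
    have h1 : θ (δ c) (F V W 1 + F V W 2 + F V W 3) * F V W 0 = F V W 0 := by
      refine proj_full ?_ ?_ (F_star h.adjoint 0) (hFi 0) ?_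
      · rw [← hstar _ _ hm]
        simp only [star_add, F_star h.adjoint]
      · rw [← hmul _ _ hm _ hm]
        congr 1
        simp only [mul_add, add_mul, F_mul h.adjoint]
        simp
      · rw [hadd2, mul_add, mul_add, add_mul, add_mul, key h, key h, key h, ← add_smul, ← add_smul]
        simp [P]
        norm_num
    rw [hadd2, add_mul, add_mul] at h1
    exact h1
  -- two steps
  have htwo : ∀ c d (k l : Fin 7), P d k l = 1 →
      θ (δ c) (θ (δ d) (F V W l)) * θ (δ c) (F V W k) = θ (δ c) (F V W k) := by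
    intro c d k l hP
    rw [← hmul _ _ (hθm d _ (hF l)) _ (hF k), hone d k l hP]
  have htwo0 : ∀ c d (k l : Fin 7), P d k l = 0 →
      θ (δ c) (θ (δ d) (F V W l)) * θ (δ c) (F V W k) = 0 := by
    intro c d k l hP
    rw [← hmul _ _ (hθm d _ (hF l)) _ (hF k), hzero d k l hP, hθ0]
  have hexp : ∀ c d (l : Fin 7), θ (δ c) (θ (δ d) (F V W l)) * F V W 0 =
      θ (δ c) (θ (δ d) (F V W l)) * θ (δ c) (F V W 1) * F V W 0 +
      θ (δ c) (θ (δ d) (F V W l)) * θ (δ c) (F V W 2) * F V W 0 +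
      θ (δ c) (θ (δ d) (F V W l)) * θ (δ c) (F V W 3) * F V W 0 := by
    intro c d l
    conv_lhs => rw [← hroot c]
    noncomm_ring
  have hrel1 : ∀ c d l, P d 1 l = 1 → P d 2 l = 0 → P d 3 l = 0 →
      θ (δ c) (θ (δ d) (F V W l)) * F V W 0 = θ (δ c) (F V W 1) * F V W 0 := by
    intro c d l h1 h2 h3
    rw [hexp, htwo c d 1 l h1, htwo0 c d 2 l h2, htwo0 c d 3 l h3]
    simp
  have hrel2 : ∀ c d l, P d 1 l = 0 → P d 2 l = 1 → P d 3 l = 0 →
      θ (δ c) (θ (δ d) (F V W l)) * F V W 0 = θ (δ c) (F V W 2) * F V W 0 := by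
    intro c d l h1 h2 h3
    rw [hexp, htwo0 c d 1 l h1, htwo c d 2 l h2, htwo0 c d 3 l h3]
    simp
  have hrel3 : ∀ c d l, P d 1 l = 0 → P d 2 l = 0 → P d 3 l = 1 →
      θ (δ c) (θ (δ d) (F V W l)) * F V W 0 = θ (δ c) (F V W 3) * F V W 0 := by
    intro c d l h1 h2 h3
    rw [hexp, htwo0 c d 1 l h1, htwo0 c d 2 l h2, htwo c d 3 l h3]
    simp
  -- the holonomy
  have e1 : θ (δ 0) (F V W 2) * F V W 0 = θ (δ 1) (F V W 1) * F V W 0 := by
    rw [← hrel2 0 1 4 (by simp [P, g]) (by simp [P, g]) (by simp [P, g]),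
      ← hrel1 1 0 4 (by simp [P, g]) (by simp [P, g]) (by simp [P, g]), hcomm 0 1 _ (hF 4)]
  have e2 : θ (δ 1) (F V W 1) * F V W 0 = θ (δ 2) (F V W 2) * F V W 0 := by
    rw [← hrel1 1 2 4 (by simp [P, g]) (by simp [P, g]) (by simp [P, g]),
      ← hrel2 2 1 4 (by simp [P, g]) (by simp [P, g]) (by simp [P, g]), hcomm 1 2 _ (hF 4)]
  have e3 : θ (δ 2) (F V W 2) * F V W 0 = θ (δ 0) (F V W 3) * F V W 0 := by
    rw [← hrel2 2 0 5 (by simp [P, g]) (by simp [P, g]) (by simp [P, g]),
      ← hrel3 0 2 5 (by simp [P, g]) (by simp [P, g]) (by simp [P, g]), hcomm 2 0 _ (hF 5)]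
  have e4 : θ (δ 0) (F V W 2) * F V W 0 = 0 := by
    calc θ (δ 0) (F V W 2) * F V W 0 = θ (δ 0) (F V W 2) * (θ (δ 0) (F V W 2) * F V W 0) := by
          rw [← mul_assoc, hi]
      _ = θ (δ 0) (F V W 2) * (θ (δ 0) (F V W 3) * F V W 0) := by rw [e1, e2, e3]
      _ = 0 := by
          rw [← mul_assoc, ← hmul _ _ (hF 2) _ (hF 3), F_mul h.adjoint, if_neg (by decide), hθ0, zero_mul]
  have e5 := key h 0 0 2
  rw [mul_assoc, e4, mul_zero] at e5
  have e6 : ((P 0 0 2 : ℝ) : ℂ) ≠ 0 := by simp [P]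
  exact F_ne_zero h.adjoint (((smul_eq_zero.1 e5.symm).resolve_left e6))

end nodil

/-- **Main theorem.** There are a commutative von Neumann algebra `A` on a Hilbert space `H` of
dimension `7` and three commuting unital normal completely positive maps `T 0, T 1, T 2` on `A` such
that the CP-semigroup over `ℕ³` generated by them has no dilation, for any Hilbert space `K`, any
von Neumann algebra `B` on `K` and any semigroup `θ` of (possibly non-normal) `*`-endomorphisms
of `B`. -/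
theorem result : ∃ (H : Type) (_ : NormedAddCommGroup H) (_ : InnerProductSpace ℂ H)
    (_ : CompleteSpace H) (A : VonNeumannAlgebra H) (T : Fin 3 → Op H → Op H),
    Module.finrank ℂ H = 7 ∧ IsCommutative A ∧ (∀ c, IsNormalUCP A (T c)) ∧ CommuteOn A T ∧
      ¬ HasDilation.{u} A (semigroupOf T) :=
  ⟨H7, inferInstance, inferInstance, inferInstance, D, T, by simp [H7],
    fun _ hx _ hy => D_comm hx hy, normalUCP, fun c d a _ => T_comm c d a,
    fun ⟨_, _, _, _, _, _, _, _, h⟩ => no_dilation h⟩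

end Pool.Agent.Results.MP_0a86e9_an.NoDilationH79
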